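import Pool.Agent.Q152.CC.Stm2
import Pool.Agent.H510R2.Div

/-! Project CC, job REP: representations by the norm form of the Eisenstein integers. -/

set_option autoImplicit false

namespace Pool.Agent.Q65.CC

open Pool.Agent.Y692.QS
open Pool.Agent.Q152.CC (uu S_REP)

noncomputable section

/-- the quotient of the division with remainder -/
def qt (a b : Ei) : Ei :=
  ⟨round (((a * star b).re : ℚ) / (nr b : ℚ)), round (((a * star b).im : ℚ) / (nr b : ℚ))⟩

theorem nr_pos {b : Ei} (hb : b ≠ 0) : 0 < nr b :=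
  lt_of_le_of_ne (nr_nonneg b) fun h => hb (nr_zero_iff.1 h.symm)

theorem qt_lt (a : Ei) {b : Ei} (hb : b ≠ 0) : nr (a - b * qt a b) < nr b := by
  have hN := nr_pos hb
  have hNq : (0 : ℚ) < (nr b : ℚ) := by exact_mod_cast hN
  obtain ⟨x, hx⟩ : ∃ x : ℚ, x = ((a * star b).re : ℚ) / (nr b : ℚ) -
    round (((a * star b).re : ℚ) / (nr b : ℚ)) := ⟨_, rfl⟩
  obtain ⟨y, hy⟩ : ∃ y : ℚ, y = ((a * star b).im : ℚ) / (nr b : ℚ) -
    round (((a * star b).im : ℚ) / (nr b : ℚ)) := ⟨_, rfl⟩
  have hx1 : |x| ≤ 1 / 2 := by rw [hx]; exact abs_sub_round _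
  have hy1 : |y| ≤ 1 / 2 := by rw [hy]; exact abs_sub_round _
  have e1 : (a - b * qt a b) * star b = a * star b - ((nr b : ℤ) : Ei) * qt a b := by
    rw [← mul_star b]; ring
  have e2 : (((a - b * qt a b) * star b).re : ℚ) = nr b * x := by
    rw [e1, QuadraticAlgebra.re_sub, mul_re ((nr b : ℤ) : Ei), QuadraticAlgebra.re_intCast,
      QuadraticAlgebra.im_intCast, hx]
    simp only [qt]
    push_cast
    field_simp
    ring
  have e3 : (((a - b * qt a b) * star b).im : ℚ) = nr b * y := by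
    rw [e1, QuadraticAlgebra.im_sub, mul_im ((nr b : ℤ) : Ei), QuadraticAlgebra.re_intCast,
      QuadraticAlgebra.im_intCast, hy]
    simp only [qt]
    push_cast
    field_simp
    ring
  have e4 : (nr (a - b * qt a b) : ℚ) * nr b = (nr b : ℚ) ^ 2 * (x ^ 2 - x * y + y ^ 2) := by
    have : nr (a - b * qt a b) * nr b = nr ((a - b * qt a b) * star b) := by
      rw [nr_mul, nr_star]
    have h2 : (nr (a - b * qt a b) : ℚ) * nr b = (nr ((a - b * qt a b) * star b) : ℚ) := by
      exact_mod_cast congrArg (Int.cast : ℤ → ℚ) this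
    rw [h2, nr]
    push_cast
    rw [e2, e3]
    ring
  have h5 : x ^ 2 - x * y + y ^ 2 ≤ 3 / 4 := by
    rw [abs_le] at hx1 hy1
    nlinarith [mul_nonneg (sub_nonneg.2 hx1.2) (sub_nonneg.2 hy1.2), mul_nonneg (sub_nonneg.2 hx1.2) (neg_le_iff_add_nonneg.1 hy1.1),
      mul_nonneg (neg_le_iff_add_nonneg.1 hx1.1) (sub_nonneg.2 hy1.2), mul_nonneg (neg_le_iff_add_nonneg.1 hx1.1) (neg_le_iff_add_nonneg.1 hy1.1),
      mul_nonneg (sub_nonneg.2 hx1.2) (neg_le_iff_add_nonneg.1 hx1.1), mul_nonneg (sub_nonneg.2 hy1.2) (neg_le_iff_add_nonneg.1 hy1.1)]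
  have h6 : (nr (a - b * qt a b) : ℚ) * nr b < (nr b : ℚ) * nr b := by
    rw [e4]
    nlinarith [mul_pos hNq hNq]
  have h7 := lt_of_mul_lt_mul_right h6 hNq.le
  exact_mod_cast h7

/-- the Eisenstein integers are Euclidean -/
@[reducible] def euc : EuclideanDomain Ei :=
  { (inferInstance : CommRing Ei), (inferInstance : Nontrivial Ei) with
    quotient := qt
    quotient_zero := by
      intro a
      ext <;> simp [qt]
    remainder := fun a b => a - b * qt a b
    quotient_mul_add_remainder_eq := by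
      intro a b
      ring
    r := fun a b => (nr a).natAbs < (nr b).natAbs
    r_wellFounded := (measure fun a => (nr a).natAbs).wf
    remainder_lt := by
      intro a b hb
      have h1 := qt_lt a hb
      have h2 := nr_nonneg (a - b * qt a b)
      show (nr (a - b * qt a b)).natAbs < (nr b).natAbs
      omega
    mul_left_not_lt := by
      intro a b hb
      have h1 := nr_pos hb
      have h2 := nr_nonneg a
      show ¬ (nr (a * b)).natAbs < (nr a).natAbs
      rw [nr_mul, Int.natAbs_mul, not_lt]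
      exact Nat.le_mul_of_pos_right _ (by omega) }

theorem prime_of_irr {z : Ei} (h : Irreducible z) : Prime z := by
  have hp : IsPrincipalIdealRing Ei := @EuclideanDomain.to_principal_ideal_domain Ei euc
  exact UniqueFactorizationMonoid.irreducible_iff_prime.1 h

theorem natCast_dvd_star {p : ℕ} {z : Ei} (h : (p : Ei) ∣ star z) : (p : Ei) ∣ z := by
  obtain ⟨c, hc⟩ := h
  refine ⟨star c, ?_⟩
  have h1 : star (star z) = star ((p : Ei) * c) := by rw [hc]
  rw [star_star, star_mul, star_natCast] at h1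
  rw [h1, mul_comm]

/-- a prime `p` with the divisors `π₁`, `π₂` -/
theorem step_exists (p : ℕ) (hp : p.Prime) : ∃ π₁ π₂ : Ei, ∀ z : Ei, (p : ℤ) ∣ nr z →
    ∃ z' : Ei, (z = π₁ * z' ∨ z = π₂ * z') ∧ (nr z = p * nr z' ∨ nr z = p ^ 2 * nr z') := by
  have hp0 : (0 : ℤ) < p := by exact_mod_cast hp.pos
  by_cases h : ∃ π : Ei, nr π = p
  · obtain ⟨π, hπ⟩ := h
    refine ⟨π, star π, fun z hz => ?_⟩
    have hirr : Irreducible π := by
      constructor
      · rw [isUnit_iff, hπ]
        have := hp.one_lt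
        omega
      · intro a b hab
        have h1 : nr a * nr b = p := by rw [← nr_mul, ← hab, hπ]
        have ha := nr_nonneg a
        have hb := nr_nonneg b
        have hpz : Prime (p : ℤ) := Nat.prime_iff_prime_int.1 hp
        rcases (hpz.irreducible.isUnit_or_isUnit h1.symm) with h2 | h2
        · left
          rw [isUnit_iff]
          rcases Int.isUnit_iff.1 h2 with h3 | h3 <;> omega
        · right
          rw [isUnit_iff]
          rcases Int.isUnit_iff.1 h2 with h3 | h3 <;> omega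
    have hpr := prime_of_irr hirr
    have h1 : π ∣ z * star z := by
      rw [mul_star]
      obtain ⟨c, hc⟩ := hz
      rw [hc, Int.cast_mul, ← hπ, ← mul_star, mul_assoc]
      exact dvd_mul_right _ _
    rcases hpr.dvd_or_dvd h1 with h2 | h2
    · obtain ⟨z', hz'⟩ := h2
      refine ⟨z', Or.inl hz', Or.inl ?_⟩
      rw [hz', nr_mul, hπ]
    · obtain ⟨c, hc⟩ := h2
      have h3 : z = star π * star c := by
        have h4 : star (star z) = star (π * c) := by rw [hc]
        rw [star_star, star_mul] at h4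
        rw [h4, mul_comm]
      refine ⟨star c, Or.inr h3, Or.inl ?_⟩
      rw [h3, nr_mul, nr_star π, hπ]
  · refine ⟨p, p, fun z hz => ?_⟩
    have hirr : Irreducible (p : Ei) := by
      constructor
      · rw [isUnit_iff, nr_nat]
        have h2 := hp.one_lt
        have h3 : (1 : ℤ) < p := by exact_mod_cast h2
        nlinarith
      · intro a b hab
        have h1 : nr a * nr b = (p : ℤ) ^ 2 := by rw [← nr_mul, ← hab, nr_nat]
        have ha := nr_nonneg a
        have hb := nr_nonneg b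
        have h2 : (nr a).toNat * (nr b).toNat = p ^ 2 := by
          have h3 : (((nr a).toNat * (nr b).toNat : ℕ) : ℤ) = ((p ^ 2 : ℕ) : ℤ) := by
            push_cast
            rw [Int.toNat_of_nonneg ha, Int.toNat_of_nonneg hb, h1]
          exact_mod_cast h3
        obtain ⟨k, hk, hk2⟩ := (Nat.dvd_prime_pow hp).1 ⟨_, h2.symm⟩
        have hk3 : k = 0 ∨ k = 1 ∨ k = 2 := by omega
        rcases hk3 with rfl | rfl | rfl
        · left
          rw [isUnit_iff]
          rw [pow_zero] at hk2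
          omega
        · exfalso
          apply h
          refine ⟨a, ?_⟩
          rw [pow_one] at hk2
          omega
        · right
          rw [isUnit_iff]
          rw [hk2] at h2
          have h3 : (nr b).toNat = 1 := by
            have : 0 < p ^ 2 := by have := hp.pos; positivity
            exact Nat.eq_of_mul_eq_mul_left this (by rw [h2, mul_one])
          omega
    have hpr := prime_of_irr hirr
    have h1 : (p : Ei) ∣ z * star z := by
      rw [mul_star]
      obtain ⟨c, hc⟩ := hz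
      rw [hc, Int.cast_mul, Int.cast_natCast]
      exact dvd_mul_right _ _
    have h2 : (p : Ei) ∣ z := by
      rcases hpr.dvd_or_dvd h1 with h2 | h2
      · exact h2
      · exact natCast_dvd_star h2
    obtain ⟨z', hz'⟩ := h2
    refine ⟨z', Or.inl hz', Or.inr ?_⟩
    rw [hz', nr_mul, nr_nat]

/-- the elements of norm `m` -/
def R (m : ℕ) : Set Ei := {z | nr z = m}

theorem split (p : ℕ) (hp : p.Prime) : ∃ π₁ π₂ : Ei, ∀ (k : ℕ) (m : ℕ), ¬ p ∣ m → ∀ z ∈ R (p ^ k * m),
    ∃ a b : ℕ, a ≤ k ∧ b ≤ k ∧ ∃ z' ∈ R m, z = π₁ ^ a * π₂ ^ b * z' := by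
  obtain ⟨π₁, π₂, hst⟩ := step_exists p hp
  have hp0 : (0 : ℤ) < p := by exact_mod_cast hp.pos
  refine ⟨π₁, π₂, fun k => ?_⟩
  induction k using Nat.strong_induction_on with
  | _ k ih =>
    intro m hm z hz
    rcases Nat.eq_zero_or_pos k with hk | hk
    · subst hk
      refine ⟨0, 0, le_rfl, le_rfl, z, ?_, by simp⟩
      simpa using hz
    · obtain ⟨k, rfl⟩ : ∃ k', k = k' + 1 := ⟨k - 1, by omega⟩
      have hz1 : nr z = ((p ^ (k + 1) * m : ℕ) : ℤ) := hz
      have hdvd : (p : ℤ) ∣ nr z := by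
        rw [hz1]
        push_cast
        rw [pow_succ]
        exact ⟨(p : ℤ) ^ k * m, by ring⟩
      obtain ⟨z', h1, h2⟩ := hst z hdvd
      -- the norm of `z'`
      have h3 : ∃ k' : ℕ, k' ≤ k ∧ z' ∈ R (p ^ k' * m) := by
        rcases h2 with h2 | h2
        · refine ⟨k, le_rfl, ?_⟩
          show nr z' = _
          have h4 : (p : ℤ) * nr z' = p * ((p ^ k * m : ℕ) : ℤ) := by
            rw [← h2, hz1]
            push_cast
            ring
          exact mul_left_cancel₀ hp0.ne' h4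
        · have hk1 : 1 ≤ k := by
            by_contra hk0
            have hk0' : k = 0 := by omega
            subst hk0'
            apply hm
            have h4 : (p : ℤ) * (p * nr z') = p * m := by
              rw [← mul_assoc, ← sq, ← h2, hz1]
              push_cast
              ring
            have h5 := mul_left_cancel₀ hp0.ne' h4
            exact Int.natCast_dvd_natCast.1 ⟨nr z', h5.symm⟩
          refine ⟨k - 1, by omega, ?_⟩
          show nr z' = _
          obtain ⟨k, rfl⟩ : ∃ k', k = k' + 1 := ⟨k - 1, by omega⟩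
          have h4 : (p : ℤ) ^ 2 * nr z' = p ^ 2 * ((p ^ k * m : ℕ) : ℤ) := by
            rw [← h2, hz1]
            push_cast
            ring
          exact mul_left_cancel₀ (pow_ne_zero 2 hp0.ne') h4
      obtain ⟨k', hk', hz'⟩ := h3
      obtain ⟨a, b, ha, hb, z'', hz'', he⟩ := ih k' (by omega) m hm z' hz'
      rcases h1 with h1 | h1
      · refine ⟨a + 1, b, by omega, by omega, z'', hz'', ?_⟩
        rw [h1, he]
        ring
      · refine ⟨a, b + 1, by omega, by omega, z'', hz'', ?_⟩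
        rw [h1, he]
        ring

theorem R_one : (R 1).Finite ∧ (R 1).ncard ≤ 9 := by
  have h1 : R 1 ⊆ (fun t : ℤ × ℤ => (⟨t.1, t.2⟩ : Ei)) '' (Set.Icc (-1) 1 ×ˢ Set.Icc (-1) 1) := by
    intro z hz
    have hz1 : nr z = ((1 : ℕ) : ℤ) := hz
    refine ⟨(z.re, z.im), ?_, rfl⟩
    unfold nr at hz1
    push_cast at hz1
    have h2 : (2 * z.re - z.im) ^ 2 + 3 * z.im ^ 2 = 4 := by linarith [hz1]
    have h3 : (2 * z.im - z.re) ^ 2 + 3 * z.re ^ 2 = 4 := by linarith [hz1]
    have h4 : z.im ^ 2 ≤ 1 := by nlinarith [sq_nonneg (2 * z.re - z.im)]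
    have h5 : z.re ^ 2 ≤ 1 := by nlinarith [sq_nonneg (2 * z.im - z.re)]
    rw [sq_le_one_iff_abs_le_one, abs_le] at h4 h5
    exact ⟨⟨h5.1, h5.2⟩, ⟨h4.1, h4.2⟩⟩
  have hfin : (Set.Icc (-1 : ℤ) 1 ×ˢ Set.Icc (-1 : ℤ) 1).Finite :=
    (Set.finite_Icc _ _).prod (Set.finite_Icc _ _)
  refine ⟨(hfin.image _).subset h1, ?_⟩
  refine (Set.ncard_le_ncard h1 (hfin.image _)).trans ((Set.ncard_image_le hfin).trans ?_)
  rw [Set.ncard_prod]
  have : (Set.Icc (-1 : ℤ) 1).ncard = 3 := by
    rw [← Finset.coe_Icc, Set.ncard_coe_finset]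
    rfl
  rw [this]

theorem R_step (p : ℕ) (hp : p.Prime) (k m : ℕ) (hm : ¬ p ∣ m) (h : (R m).Finite) :
    (R (p ^ k * m)).Finite ∧ (R (p ^ k * m)).ncard ≤ (k + 1) ^ 2 * (R m).ncard := by
  obtain ⟨π₁, π₂, hs⟩ := split p hp
  have h1 : R (p ^ k * m) ⊆ (fun t : (ℕ × ℕ) × Ei => π₁ ^ t.1.1 * π₂ ^ t.1.2 * t.2) ''
      ((Set.Iic k ×ˢ Set.Iic k) ×ˢ R m) := by
    intro z hz
    obtain ⟨a, b, ha, hb, z', hz', he⟩ := hs k m hm z hz
    exact ⟨((a, b), z'), ⟨⟨ha, hb⟩, hz'⟩, he.symm⟩
  have hfin : ((Set.Iic k ×ˢ Set.Iic k) ×ˢ R m).Finite :=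
    ((Set.finite_Iic _).prod (Set.finite_Iic _)).prod h
  refine ⟨(hfin.image _).subset h1, ?_⟩
  refine (Set.ncard_le_ncard h1 (hfin.image _)).trans ((Set.ncard_image_le hfin).trans ?_)
  rw [Set.ncard_prod, Set.ncard_prod]
  have : (Set.Iic k).ncard = k + 1 := by
    rw [← Finset.coe_Iic, Set.ncard_coe_finset, Nat.card_Iic]
  rw [this, sq]

theorem R_bound : ∀ m : ℕ, 1 ≤ m → (R m).Finite ∧ (R m).ncard ≤ 9 * m.divisors.card ^ 2 := by
  intro m
  induction m using Nat.strong_induction_on with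
  | _ m ih =>
    intro hm
    rcases Nat.eq_or_lt_of_le hm with h1 | h1
    · subst h1
      refine ⟨R_one.1, R_one.2.trans ?_⟩
      simp
    · obtain ⟨p, hp, hpm⟩ := Nat.exists_prime_and_dvd (show m ≠ 1 by omega)
      obtain ⟨k, n, hn, hmn⟩ := Nat.exists_eq_pow_mul_and_not_dvd (show m ≠ 0 by omega) p hp.ne_one
      have hk : k ≠ 0 := by
        rintro rfl
        apply hn
        rw [hmn, pow_zero, one_mul] at hpm
        exact hpm
      have hn0 : n ≠ 0 := by
        rintro rfl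
        exact hn (dvd_zero p)
      have hpk : 1 < p ^ k := Nat.one_lt_pow hk hp.one_lt
      have hnm : n < m := by
        rw [hmn]
        exact (Nat.lt_mul_iff_one_lt_left (Nat.pos_of_ne_zero hn0)).2 hpk
      obtain ⟨h2, h3⟩ := ih n hnm (Nat.pos_of_ne_zero hn0)
      obtain ⟨h4, h5⟩ := R_step p hp k n hn h2
      rw [hmn]
      refine ⟨h4, h5.trans ?_⟩
      have hcop : Nat.Coprime (p ^ k) n := (hp.coprime_iff_not_dvd.2 hn).pow_left k
      rw [hcop.card_divisors_mul, Nat.divisors_prime_pow hp, Finset.card_map, Finset.card_range]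
      calc (k + 1) ^ 2 * (R n).ncard ≤ (k + 1) ^ 2 * (9 * n.divisors.card ^ 2) :=
            Nat.mul_le_mul_left _ h3
        _ = 9 * ((k + 1) * n.divisors.card) ^ 2 := by ring

/-- REP: the number of representations by the norm form -/
theorem rep : S_REP := by
  intro η hη
  obtain ⟨C, hC, hd⟩ := Pool.Agent.H510R2.divisor_bound (η / 2) (by positivity)
  refine ⟨9 * C ^ 2, by positivity, fun m hm => ?_⟩
  obtain ⟨h1, h2⟩ := R_bound m hm
  have hinj : Function.Injective (fun t : ℤ × ℤ => uu t.1 t.2) := by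
    intro s t h
    have h3 : (uu s.1 s.2).re = (uu t.1 t.2).re := congrArg QuadraticAlgebra.re h
    have h4 : (uu s.1 s.2).im = (uu t.1 t.2).im := congrArg QuadraticAlgebra.im h
    simp only [uu] at h3 h4
    ext <;> omega
  have h3 : {t : ℤ × ℤ | nr (uu t.1 t.2) = m} = (fun t : ℤ × ℤ => uu t.1 t.2) ⁻¹' (R m) := rfl
  have h4 : ({t : ℤ × ℤ | nr (uu t.1 t.2) = m}).Finite := by
    rw [h3]
    exact h1.preimage hinj.injOn
  refine ⟨h4, ?_⟩
  have h5 : ({t : ℤ × ℤ | nr (uu t.1 t.2) = m}).ncard ≤ (R m).ncard := by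
    refine Set.ncard_le_ncard_of_injOn (fun t : ℤ × ℤ => uu t.1 t.2) ?_ hinj.injOn h1
    intro t ht
    exact ht
  have h6 : (({t : ℤ × ℤ | nr (uu t.1 t.2) = m}.ncard : ℕ) : ℝ) ≤ 9 * (m.divisors.card : ℝ) ^ 2 := by
    exact_mod_cast h5.trans h2
  refine h6.trans ?_
  have hm0 : (0 : ℝ) < m := by exact_mod_cast hm
  have h7 := hd m hm
  have h8 : (m.divisors.card : ℝ) ^ 2 ≤ (C * (m : ℝ) ^ (η / 2)) ^ 2 :=
    pow_le_pow_left₀ (Nat.cast_nonneg _) h7 2
  have h9 : ((m : ℝ) ^ (η / 2)) ^ 2 = (m : ℝ) ^ η := by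
    rw [← Real.rpow_natCast, ← Real.rpow_mul hm0.le]
    congr 1
    push_cast
    ring
  rw [mul_pow, h9] at h8
  linarith

end

end Pool.Agent.Q65.CC
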