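import Pool.Agent.Q62.CC.Stm

/-!
# Project CC, job SCA: the controlled scalar flow
-/

set_option autoImplicit false

open Set Filter Topology MeasureTheory
open scoped ENNReal ContDiff

namespace Pool.Agent.Q65.CC

open Pool.Agent.Q62.CC
open Pool.Agent.Q61.NC (IsJet Bd mulJ Good sh cutJ cutJ_jet cutJ_left cutJ_right cutJ_bd)

theorem mulJ_right {A B : ℕ → ℝ → ℝ} {t : ℝ} (h : ∀ i, A i t = 0) (i : ℕ) : mulJ A B i t = 0 := by
  unfold mulJ
  refine Finset.sum_eq_zero fun p _ => ?_
  rw [h]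
  ring

theorem mulJ_left {A B : ℕ → ℝ → ℝ} {t : ℝ} (h : ∀ i, A i t = if i = 0 then 1 else 0) (i : ℕ) :
    mulJ A B i t = B i t := by
  unfold mulJ
  rw [Finset.sum_eq_single (0, i)]
  · simp [h]
  · intro p hp hne
    have hp' : p.1 + p.2 = i := Finset.HasAntidiagonal.mem_antidiagonal.1 hp
    have : p.1 ≠ 0 := by
      intro h0
      apply hne
      ext
      · exact h0
      · simpa [h0] using hp'
    rw [h, if_neg this]
    ring
  · intro hn
    exact absurd (Finset.HasAntidiagonal.mem_antidiagonal.2 (Nat.zero_add i)) hn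

theorem t_SCA (hp1 : S_FAM) (hp2 : S_SRA) (hp3 : S_SRB) (hp4 : S_FRJ) (hp5 : S_SWP) (hp6 : S_SPC)
    (hp7 : S_LIM) (hp8 : S_ENG) : S_SCA := by
  intro m x₀ x₁ α β M c T hW hT f hf
  obtain ⟨D, K, hF⟩ := hp1 m x₀ x₁ α β M c hW
  obtain ⟨ι, hι, l, e, A, hS⟩ := hp6 m x₀ x₁ α β M c hW
  have hK := hF.hK
  have hsub : ∀ x ∈ Icc α β, x ∈ Ioo x₀ x₁ := fun x hx =>
    ⟨hW.h0.trans_le hx.1, hx.2.trans_lt hW.h1⟩
  have hM : ∀ x ∈ Ioo x₀ x₁, |m x| ≤ M := fun x hx => by
    rw [abs_of_pos (hW.pos x hx)]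
    exact hW.le x hx
  -- the coefficients
  set g : ι → ℝ := fun i => co m α β l e f i * e i with hg
  have hsum := hS.pars f hf
  set S : ℝ := ∫ x in Icc α β, m x * f x ^ 2 with hSdef
  have hco : ∀ i, |co m α β l e f i| ≤ √S := by
    intro i
    apply Real.abs_le_sqrt
    exact le_hasSum hsum i fun j _ => sq_nonneg _
  have hA' : 0 ≤ √S * A := mul_nonneg (Real.sqrt_nonneg _) hS.hA
  have hgb : ∀ i, |g i| ≤ √S * A * (1 + l i) ^ 2 := by
    intro i
    rw [hg]
    simp only [abs_mul]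
    rw [mul_assoc]
    exact mul_le_mul (hco i) (hS.ebd i) (abs_nonneg _) (Real.sqrt_nonneg _)
  obtain ⟨hjet, hbd, -⟩ := hp4 ι l g (√S * A) hA' hS.lpos hS.lsum hgb
  -- the jet
  set R : ℝ := 16 * K with hR
  have hR0 : 0 < R := by positivity
  have hr0 : 0 < 4 * R⁻¹ := by positivity
  set Z : ℕ → ℝ → ℝ := mulJ (cutJ T R) (fj l g) with hZ
  have hZgood : Good (√K) Z := by
    refine ⟨(cutJ_jet T R).mul hjet, fun t₁ ht₁ => ?_⟩
    obtain ⟨C, hC, hb⟩ := Bd.mul hr0.le (cutJ_bd T R hT hR0) (hbd _ hr0) t₁ ht₁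
    refine ⟨C, 2 * (4 * R⁻¹), hC, by positivity, ?_, hb⟩
    rw [Real.sq_sqrt hK.le, hR]
    have : 2 * (4 * (16 * K)⁻¹) * K = 1 / 2 := by
      field_simp
      norm_num
    rw [this]
    norm_num
  have hZT : ∀ t, T ≤ t → ∀ k, Z k t = 0 := fun t ht k =>
    mulJ_right (fun i => cutJ_right T R hT hR0 i ht) k
  have hZ0 : ∀ t, 0 < t → t ≤ T / 2 → ∀ k, Z k t = fj l g k t := fun t h0 ht k =>
    mulJ_left (fun i => cutJ_left T R hR0 i h0 ht) k
  have hA := fun (t x : ℝ) (ht : 0 < t) (hx : x ∈ Ioo x₀ x₁) =>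
    hp2 m x₀ x₁ α β M _ _ _ D K hM hF Z hZgood t x ht hx
  obtain ⟨hB1, hB2, hB3⟩ := hp3 m x₀ x₁ α β M _ _ _ D K hM hW.smooth hF Z hZgood
  -- identification with the free flow
  have hV0 : ∀ t, 0 < t → t ≤ T / 2 → ∀ x ∈ Icc α β,
      SV (vv m α β) Z t x = VF m α β l e f t x := by
    intro t h0 ht x hx
    have h1 := hp5 ι l g (√S * A) hA' hS.lpos hS.lsum hgb (fun k => vv m α β k x) D K hF.hD hK
      (fun k => hF.bv k x (hsub x hx)) t h0
    unfold SV VF
    simp only [hZ0 t h0 ht]
    rw [h1]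
    refine tsum_congr fun i => ?_
    simp only [hg, Vz]
    ring
  have hW0 : ∀ t, 0 < t → t ≤ T / 2 → ∀ x ∈ Icc α β,
      SV (vd m α β) Z t x = WF m α β l e f t x := by
    intro t h0 ht x hx
    have h1 := hp5 ι l g (√S * A) hA' hS.lpos hS.lsum hgb (fun k => vd m α β k x) D K hF.hD hK
      (fun k => hF.bw k x (hsub x hx)) t h0
    unfold SV WF
    simp only [hZ0 t h0 ht]
    rw [h1]
    refine tsum_congr fun i => ?_
    simp only [hg, Vdz]
    ring
  have hzero : ∀ t, T ≤ t → ∀ (v : ℕ → ℝ → ℝ) (x : ℝ), SV v Z t x = 0 := by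
    intro t ht v x
    unfold SV
    simp only [hZT t ht, zero_mul, tsum_zero]
  refine ⟨SV (vv m α β) Z, SV (vv m α β) (sh Z), SV (vd m α β) Z, SQ (kq m α β) Z, ?_⟩
  exact
    { smooth := hB1
      qsmooth := hB3
      wcont := hB2.continuousOn
      dt := by
        intro t x ht hx
        have h1 : HasDerivAt (fun s : ℝ => (s, x)) ((1 : ℝ), (0 : ℝ)) t :=
          (hasDerivAt_id t).prodMk (hasDerivAt_const t x)
        have h2 := (hA t x ht hx).1.comp_hasDerivAt t h1
        simpa [Function.comp_def] using h2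
      dx := by
        intro t x ht hx
        have h1 : HasDerivAt (fun y : ℝ => (t, y)) ((0 : ℝ), (1 : ℝ)) x :=
          (hasDerivAt_const x t).prodMk (hasDerivAt_id x)
        have h2 := (hA t x ht hx).1.comp_hasDerivAt x h1
        simpa [Function.comp_def] using h2
      dxx := by
        intro t x ht hx
        have h1 : HasDerivAt (fun y : ℝ => (t, y)) ((0 : ℝ), (1 : ℝ)) x :=
          (hasDerivAt_const x t).prodMk (hasDerivAt_id x)
        have h2 := (hA t x ht hx).2.1.comp_hasDerivAt x h1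
        simpa [Function.comp_def] using h2
      wall := by
        intro t _
        unfold SV
        simp only [hF.va, hF.vb, mul_zero, tsum_zero, and_self]
      zero := by
        intro t ht
        refine ⟨?_, fun x => ⟨hzero t ht _ x, hzero t ht _ x⟩⟩
        unfold SQ
        simp only [hZT t ht, zero_mul, tsum_zero]
      lim := by
        have h1 := hp7 m x₀ x₁ α β M c hW ι l e A hS f hf
        refine h1.congr' ?_
        have h2 : Ioc (0 : ℝ) (T / 2) ∈ 𝓝[>] (0 : ℝ) := Ioc_mem_nhdsGT (by positivity)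
        filter_upwards [h2] with t ht
        refine setLIntegral_congr_fun measurableSet_Icc fun x hx => ?_
        simp only [hV0 t ht.1 ht.2 x hx]
      en := by
        have h8 := hp8 m x₀ x₁ α β M c hW ι l e A hS f hf
        set F : ℝ → ℝ≥0∞ := fun t => ∫⁻ x in Icc α β,
          (‖SV (vv m α β) Z t x‖ₑ ^ 2 + ‖SV (vd m α β) Z t x‖ₑ ^ 2) with hFdef
        have hcov : Ioi (0 : ℝ) ⊆ (Ioc 0 (T / 2) ∪ Icc (T / 2) T) ∪ Ici T := by
          intro t ht
          rcases le_or_gt t (T / 2) with h | h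
          · exact Or.inl (Or.inl ⟨ht, h⟩)
          · rcases le_or_gt t T with h' | h'
            · exact Or.inl (Or.inr ⟨h.le, h'⟩)
            · exact Or.inr h'.le
        have b1 : ∫⁻ t in Ioc (0 : ℝ) (T / 2), F t < ⊤ := by
          refine lt_of_le_of_lt ?_ h8
          calc ∫⁻ t in Ioc (0 : ℝ) (T / 2), F t
              = ∫⁻ t in Ioc (0 : ℝ) (T / 2), ∫⁻ x in Icc α β,
                  (‖VF m α β l e f t x‖ₑ ^ 2 + ‖WF m α β l e f t x‖ₑ ^ 2) := by
                refine setLIntegral_congr_fun measurableSet_Ioc fun t ht => ?_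
                refine setLIntegral_congr_fun measurableSet_Icc fun x hx => ?_
                simp only [hV0 t ht.1 ht.2 x hx, hW0 t ht.1 ht.2 x hx]
            _ ≤ _ := lintegral_mono_set fun t ht => ht.1
        have b2 : ∫⁻ t in Icc (T / 2) T, F t < ⊤ := by
          have hcomp : IsCompact (Icc (T / 2) T ×ˢ Icc α β) := isCompact_Icc.prod isCompact_Icc
          have hs2 : Icc (T / 2) T ×ˢ Icc α β ⊆ Ioi 0 ×ˢ Ioo x₀ x₁ := fun z hz =>
            ⟨lt_of_lt_of_le (by positivity) hz.1.1, hsub _ hz.2⟩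
          obtain ⟨B1, hB1'⟩ := hcomp.exists_bound_of_continuousOn (hB1.continuousOn.mono hs2)
          obtain ⟨B2, hB2'⟩ := hcomp.exists_bound_of_continuousOn (hB2.continuousOn.mono hs2)
          have hb : ∀ t ∈ Icc (T / 2) T, F t ≤
              (ENNReal.ofReal B1 ^ 2 + ENNReal.ofReal B2 ^ 2) * volume (Icc α β) := by
            intro t ht
            rw [← setLIntegral_const]
            refine setLIntegral_mono' measurableSet_Icc fun x hx => ?_
            have i1 := hB1' (t, x) ⟨ht, hx⟩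
            have i2 := hB2' (t, x) ⟨ht, hx⟩
            have j1 : ‖SV (vv m α β) Z t x‖ₑ ≤ ENNReal.ofReal B1 := by
              rw [← ofReal_norm]
              exact ENNReal.ofReal_le_ofReal i1
            have j2 : ‖SV (vd m α β) Z t x‖ₑ ≤ ENNReal.ofReal B2 := by
              rw [← ofReal_norm]
              exact ENNReal.ofReal_le_ofReal i2
            gcongr
          calc ∫⁻ t in Icc (T / 2) T, F t
              ≤ ∫⁻ t in Icc (T / 2) T,
                (ENNReal.ofReal B1 ^ 2 + ENNReal.ofReal B2 ^ 2) * volume (Icc α β) :=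
                setLIntegral_mono' measurableSet_Icc hb
            _ = ((ENNReal.ofReal B1 ^ 2 + ENNReal.ofReal B2 ^ 2) * volume (Icc α β)) *
                volume (Icc (T / 2) T) := by rw [setLIntegral_const]
            _ < ⊤ := by
                refine ENNReal.mul_lt_top (ENNReal.mul_lt_top ?_ isCompact_Icc.measure_lt_top)
                  isCompact_Icc.measure_lt_top
                exact ENNReal.add_lt_top.2 ⟨ENNReal.pow_lt_top ENNReal.ofReal_lt_top,
                  ENNReal.pow_lt_top ENNReal.ofReal_lt_top⟩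
        have b3 : ∫⁻ t in Ici T, F t = 0 := by
          have : ∀ t ∈ Ici T, F t = 0 := by
            intro t ht
            simp only [hFdef, hzero t ht]
            simp
          rw [setLIntegral_congr_fun measurableSet_Ici this]
          simp
        calc ∫⁻ t in Ioi (0 : ℝ), F t
            ≤ ∫⁻ t in (Ioc 0 (T / 2) ∪ Icc (T / 2) T) ∪ Ici T, F t := lintegral_mono_set hcov
          _ ≤ (∫⁻ t in Ioc 0 (T / 2) ∪ Icc (T / 2) T, F t) + ∫⁻ t in Ici T, F t :=
              lintegral_union_le _ _ _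
          _ ≤ ((∫⁻ t in Ioc 0 (T / 2), F t) + ∫⁻ t in Icc (T / 2) T, F t) +
                ∫⁻ t in Ici T, F t := by
              gcongr
              exact lintegral_union_le _ _ _
          _ < ⊤ := by
              rw [b3, add_zero]
              exact ENNReal.add_lt_top.2 ⟨b1, b2⟩ }

end Pool.Agent.Q65.CC
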