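import Pool.Agent.Q62.CC.Stm

/-!
# Project CC, job SHL: integrals over a cylindrical shell of functions of the distance from the axis
-/

set_option autoImplicit false

open Set Filter Topology MeasureTheory
open scoped ENNReal ContDiff

namespace Pool.Agent.Q65.CC

open Pool.Agent.Q62.CC
open Pool.Agent.Q61.NC (Sp pd)

theorem chg {a b c : ℝ} (ha : 0 < a) (G : ℝ → ℝ≥0∞) {s : Set ℝ} (hs : MeasurableSet s)
    (h1 : ∀ u ∈ s, a / 2 ≤ |u|) (h2 : ∀ u ∈ s, u ^ 2 + c ∈ Icc (a ^ 2) (b ^ 2))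
    (hinj : InjOn (fun u : ℝ => u ^ 2 + c) s) :
    ∫⁻ u in s, G (u ^ 2 + c) ≤ ENNReal.ofReal (1 / a) * ∫⁻ t in Icc (a ^ 2) (b ^ 2), G t := by
  have hd : ∀ x ∈ s, HasDerivWithinAt (fun u : ℝ => u ^ 2 + c) (2 * x) s x := by
    intro x _
    have := (((hasDerivAt_pow 2 x).add_const c)).hasDerivWithinAt (s := s)
    simpa using this
  have h3 := lintegral_image_eq_lintegral_abs_deriv_mul hs hd hinj G
  calc ∫⁻ u in s, G (u ^ 2 + c)
      ≤ ∫⁻ u in s, ENNReal.ofReal (1 / a) * (ENNReal.ofReal |2 * u| * G (u ^ 2 + c)) := by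
        refine setLIntegral_mono' hs fun u hu => ?_
        rw [← mul_assoc, ← ENNReal.ofReal_mul (by positivity)]
        have h4 : 1 ≤ 1 / a * |2 * u| := by
          rw [one_div, inv_mul_eq_div, le_div_iff₀ ha, abs_mul, abs_two]
          linarith [h1 u hu]
        calc G (u ^ 2 + c) = 1 * G (u ^ 2 + c) := (one_mul _).symm
          _ ≤ ENNReal.ofReal (1 / a * |2 * u|) * G (u ^ 2 + c) := by
              gcongr
              exact ENNReal.one_le_ofReal.2 h4
    _ = ENNReal.ofReal (1 / a) * ∫⁻ u in s, ENNReal.ofReal |2 * u| * G (u ^ 2 + c) :=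
        lintegral_const_mul' _ _ ENNReal.ofReal_ne_top
    _ = ENNReal.ofReal (1 / a) * ∫⁻ t in (fun u => u ^ 2 + c) '' s, G t := by rw [h3]
    _ ≤ _ := by
        gcongr
        exact image_subset_iff.2 h2

theorem one_var {a b c : ℝ} (ha : 0 < a) (G : ℝ → ℝ≥0∞) :
    ∫⁻ u in {u : ℝ | a / 2 ≤ |u| ∧ u ^ 2 + c ∈ Icc (a ^ 2) (b ^ 2)}, G (u ^ 2 + c) ≤
      ENNReal.ofReal (2 / a) * ∫⁻ t in Icc (a ^ 2) (b ^ 2), G t := by
  have hm : Measurable fun u : ℝ => u ^ 2 + c := by fun_prop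
  set s₁ : Set ℝ := {u : ℝ | a / 2 ≤ u ∧ u ^ 2 + c ∈ Icc (a ^ 2) (b ^ 2)} with hs₁
  set s₂ : Set ℝ := {u : ℝ | a / 2 ≤ -u ∧ u ^ 2 + c ∈ Icc (a ^ 2) (b ^ 2)} with hs₂
  have m₁ : MeasurableSet s₁ :=
    (measurableSet_le measurable_const measurable_id).inter (hm measurableSet_Icc)
  have m₂ : MeasurableSet s₂ :=
    (measurableSet_le measurable_const measurable_id.neg).inter (hm measurableSet_Icc)
  have hsub : {u : ℝ | a / 2 ≤ |u| ∧ u ^ 2 + c ∈ Icc (a ^ 2) (b ^ 2)} ⊆ s₁ ∪ s₂ := by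
    rintro u ⟨h1, h2⟩
    rcases le_abs.1 h1 with h | h
    · exact Or.inl ⟨h, h2⟩
    · exact Or.inr ⟨h, h2⟩
  have e₁ := chg (b := b) (c := c) ha G m₁ (fun u hu => hu.1.trans (le_abs_self u)) (fun u hu => hu.2) (by
    intro u hu v hv huv
    simp only [add_left_inj] at huv
    have hu1 := hu.1
    have hv1 := hv.1
    exact (pow_left_inj₀ (by linarith) (by linarith) two_ne_zero).1 huv)
  have e₂ := chg (b := b) (c := c) ha G m₂ (fun u hu => hu.1.trans (neg_le_abs u)) (fun u hu => hu.2) (by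
    intro u hu v hv huv
    simp only [add_left_inj] at huv
    have hu1 := hu.1
    have hv1 := hv.1
    have h3 : (-u) ^ 2 = (-v) ^ 2 := by rw [neg_sq, neg_sq]; exact huv
    have := (pow_left_inj₀ (by linarith) (by linarith) two_ne_zero).1 h3
    linarith)
  calc ∫⁻ u in {u : ℝ | a / 2 ≤ |u| ∧ u ^ 2 + c ∈ Icc (a ^ 2) (b ^ 2)}, G (u ^ 2 + c)
      ≤ ∫⁻ u in s₁ ∪ s₂, G (u ^ 2 + c) := lintegral_mono_set hsub
    _ ≤ (∫⁻ u in s₁, G (u ^ 2 + c)) + ∫⁻ u in s₂, G (u ^ 2 + c) := lintegral_union_le _ _ _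
    _ ≤ ENNReal.ofReal (1 / a) * (∫⁻ t in Icc (a ^ 2) (b ^ 2), G t) +
          ENNReal.ofReal (1 / a) * ∫⁻ t in Icc (a ^ 2) (b ^ 2), G t := add_le_add e₁ e₂
    _ = _ := by
        rw [← add_mul, ← ENNReal.ofReal_add (by positivity) (by positivity)]
        congr 2
        ring

theorem piece {n : ℕ} {j k : Fin (n + 1)} (hjk : j ≠ k) {a b R : ℝ} (ha : 0 < a) {G : ℝ → ℝ≥0∞}
    (hG : Measurable G) :
    ∫⁻ x in {x : Sp (n + 1) | a / 2 ≤ |x j| ∧ N2 j k x ∈ Icc (a ^ 2) (b ^ 2) ∧ ∀ i, |x i| ≤ R},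
        G (N2 j k x) ≤
      ((ENNReal.ofReal (2 / a)) * volume {w : Fin n → ℝ | ∀ i, |w i| ≤ R}) *
        ∫⁻ t in Icc (a ^ 2) (b ^ 2), G t := by
  obtain ⟨k', hk'⟩ := Fin.exists_succAbove_eq hjk.symm
  set I := ∫⁻ t in Icc (a ^ 2) (b ^ 2), G t with hI
  set B : Set (Fin n → ℝ) := {w : Fin n → ℝ | ∀ i, |w i| ≤ R} with hB
  have mB : MeasurableSet B := by
    have : B = ⋂ i, {w : Fin n → ℝ | |w i| ≤ R} := by ext w; simp [hB]
    rw [this]
    exact MeasurableSet.iInter fun i =>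
      measurableSet_le (measurable_pi_apply i).abs measurable_const
  set T : Set (ℝ × (Fin n → ℝ)) := {z | a / 2 ≤ |z.1| ∧
    z.1 ^ 2 + z.2 k' ^ 2 ∈ Icc (a ^ 2) (b ^ 2) ∧ z.2 ∈ B} with hT
  have mk : Measurable fun z : ℝ × (Fin n → ℝ) => z.1 ^ 2 + z.2 k' ^ 2 :=
    (measurable_fst.pow_const 2).add (((measurable_pi_apply k').comp measurable_snd).pow_const 2)
  have mT : MeasurableSet T :=
    (measurableSet_le measurable_const measurable_fst.abs).inter
      ((mk measurableSet_Icc).inter (measurable_snd mB))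
  set F : ℝ × (Fin n → ℝ) → ℝ≥0∞ := T.indicator fun z => G (z.1 ^ 2 + z.2 k' ^ 2) with hF
  have mF : Measurable F := (hG.comp mk).indicator mT
  have mp : MeasurePreserving (fun x : Sp (n + 1) =>
      MeasurableEquiv.piFinSuccAbove (fun _ : Fin (n + 1) => ℝ) j
        ((MeasurableEquiv.toLp 2 (Fin (n + 1) → ℝ)).symm x)) volume volume :=
    (volume_preserving_piFinSuccAbove (fun _ : Fin (n + 1) => ℝ) j).comp
      (EuclideanSpace.volume_preserving_symm_measurableEquiv_toLp (Fin (n + 1)))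
  have mS : MeasurableSet {x : Sp (n + 1) | a / 2 ≤ |x j| ∧
      N2 j k x ∈ Icc (a ^ 2) (b ^ 2) ∧ ∀ i, |x i| ≤ R} := by
    have mc : ∀ i, Measurable fun x : Sp (n + 1) => x i := fun i =>
      (EuclideanSpace.proj (𝕜 := ℝ) i).continuous.measurable
    have mN : Measurable fun x : Sp (n + 1) => N2 j k x :=
      ((mc j).pow_const 2).add ((mc k).pow_const 2)
    have h3 : MeasurableSet {x : Sp (n + 1) | ∀ i, |x i| ≤ R} := by
      have : {x : Sp (n + 1) | ∀ i, |x i| ≤ R} = ⋂ i, {x : Sp (n + 1) | |x i| ≤ R} := by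
        ext x; simp
      rw [this]
      exact MeasurableSet.iInter fun i => measurableSet_le (mc i).abs measurable_const
    exact (measurableSet_le measurable_const (mc j).abs).inter
      ((mN measurableSet_Icc).inter h3)
  calc ∫⁻ x in {x : Sp (n + 1) | a / 2 ≤ |x j| ∧ N2 j k x ∈ Icc (a ^ 2) (b ^ 2) ∧
          ∀ i, |x i| ≤ R}, G (N2 j k x)
      ≤ ∫⁻ x : Sp (n + 1), F (MeasurableEquiv.piFinSuccAbove (fun _ : Fin (n + 1) => ℝ) j
          ((MeasurableEquiv.toLp 2 (Fin (n + 1) → ℝ)).symm x)) := by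
        rw [← lintegral_indicator mS]
        refine lintegral_mono fun x => ?_
        by_cases hx : x ∈ {x : Sp (n + 1) | a / 2 ≤ |x j| ∧
            N2 j k x ∈ Icc (a ^ 2) (b ^ 2) ∧ ∀ i, |x i| ≤ R}
        · rw [indicator_of_mem hx]
          have e1 : x (j.succAbove k') = x k := by rw [hk']
          have h1 : MeasurableEquiv.piFinSuccAbove (fun _ : Fin (n + 1) => ℝ) j
              ((MeasurableEquiv.toLp 2 (Fin (n + 1) → ℝ)).symm x) ∈ T := by
            refine ⟨hx.1, ?_, fun i => hx.2.2 _⟩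
            have h2 := hx.2.1
            unfold N2 at h2
            rw [← e1] at h2
            exact h2
          rw [hF, indicator_of_mem h1]
          unfold N2
          rw [← e1]
          exact le_refl _
        · rw [indicator_of_notMem hx]
          exact zero_le
    _ = ∫⁻ z, F z := mp.lintegral_comp mF
    _ = ∫⁻ w, ∫⁻ u, F (u, w) := by
        rw [Measure.volume_eq_prod]
        exact lintegral_prod_symm' F mF
    _ ≤ ∫⁻ w, B.indicator (fun _ => ENNReal.ofReal (2 / a) * I) w := by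
        refine lintegral_mono fun w => ?_
        by_cases hw : w ∈ B
        · rw [indicator_of_mem hw]
          have e2 : (fun u => F (u, w)) = ({u : ℝ | a / 2 ≤ |u| ∧
              u ^ 2 + w k' ^ 2 ∈ Icc (a ^ 2) (b ^ 2)}).indicator
                (fun u => G (u ^ 2 + w k' ^ 2)) := by
            funext u
            by_cases hu : u ∈ {u : ℝ | a / 2 ≤ |u| ∧ u ^ 2 + w k' ^ 2 ∈ Icc (a ^ 2) (b ^ 2)}
            · have : (u, w) ∈ T := ⟨hu.1, hu.2, hw⟩
              rw [indicator_of_mem hu, hF, indicator_of_mem this]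
            · have : (u, w) ∉ T := fun h => hu ⟨h.1, h.2.1⟩
              rw [indicator_of_notMem hu, hF, indicator_of_notMem this]
          have m3 : MeasurableSet {u : ℝ | a / 2 ≤ |u| ∧
              u ^ 2 + w k' ^ 2 ∈ Icc (a ^ 2) (b ^ 2)} := by
            have hm : Measurable fun u : ℝ => u ^ 2 + w k' ^ 2 := by fun_prop
            exact (measurableSet_le measurable_const measurable_id.abs).inter
              (hm measurableSet_Icc)
          calc ∫⁻ u, F (u, w) = _ := by rw [e2, lintegral_indicator m3]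
            _ ≤ _ := one_var ha G
        · have e3 : (fun u => F (u, w)) = fun _ => 0 := by
            funext u
            have : (u, w) ∉ T := fun h => hw h.2.2
            rw [hF, indicator_of_notMem this]
          calc ∫⁻ u, F (u, w) = 0 := by rw [e3]; simp
            _ ≤ _ := zero_le
    _ = _ := by
        rw [lintegral_indicator mB, lintegral_const, Measure.restrict_apply_univ]
        ring

theorem exists_majorant {s : Set ℝ} {G : ℝ → ℝ≥0∞}
    (hG : AEMeasurable G (volume.restrict s)) :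
    ∃ G' : ℝ → ℝ≥0∞, Measurable G' ∧ (∀ x ∈ s, G x ≤ G' x) ∧
      ∫⁻ x in s, G' x = ∫⁻ x in s, G x := by
  classical
  set G0 := hG.mk G with hG0
  have hae : G =ᵐ[volume.restrict s] G0 := hG.ae_eq_mk
  have hn : (volume.restrict s) {x | G x ≠ G0 x} = 0 := ae_iff.1 hae
  obtain ⟨Z, hZ1, hZ2, hZ3⟩ := exists_measurable_superset_of_null hn
  refine ⟨fun x => if x ∈ Z then ⊤ else G0 x, ?_, ?_, ?_⟩
  · exact Measurable.ite hZ2 measurable_const hG.measurable_mk
  · intro x _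
    show G x ≤ if x ∈ Z then ⊤ else G0 x
    split_ifs with h
    · exact le_top
    · have : ¬ (G x ≠ G0 x) := fun h' => h (hZ1 h')
      exact (not_not.1 this).le
  · refine lintegral_congr_ae ?_
    have h1 : ∀ᵐ x ∂(volume.restrict s), x ∉ Z := by
      rw [ae_iff]
      simpa using hZ3
    filter_upwards [h1, hae] with x hx hx2
    show (if x ∈ Z then ⊤ else G0 x) = G x
    rw [if_neg hx, hx2]

theorem t_SHL : S_SHL := by
  intro d j k a b R hjk ha hab
  obtain ⟨n, rfl⟩ : ∃ n, d = n + 1 := by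
    rcases d with _ | n
    · exact j.elim0
    · exact ⟨n, rfl⟩
  have hfin : volume {w : Fin n → ℝ | ∀ i, |w i| ≤ R} ≠ ⊤ := by
    have h1 : {w : Fin n → ℝ | ∀ i, |w i| ≤ R} ⊆ Icc (fun _ => -R) (fun _ => R) := by
      intro w hw
      exact ⟨fun i => (abs_le.1 (hw i)).1, fun i => (abs_le.1 (hw i)).2⟩
    exact ((measure_mono h1).trans_lt isCompact_Icc.measure_lt_top).ne
  set c := (ENNReal.ofReal (2 / a)) * volume {w : Fin n → ℝ | ∀ i, |w i| ≤ R} with hc
  have hcf : c ≠ ⊤ := ENNReal.mul_ne_top ENNReal.ofReal_ne_top hfin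
  refine ⟨c + c, ENNReal.add_ne_top.2 ⟨hcf, hcf⟩, fun G hG => ?_⟩
  obtain ⟨G', hG'm, hG'le, hG'int⟩ := exists_majorant hG
  rw [← hG'int]
  have p1 := piece (R := R) (b := b) hjk ha hG'm
  have p2 := piece (R := R) (b := b) hjk.symm ha hG'm
  have eN : ∀ x : Sp (n + 1), N2 k j x = N2 j k x := fun x => by unfold N2; ring
  simp only [eN] at p2
  have hsub : {x : Sp (n + 1) | x ∈ shell j k a b ∧ ∀ i, |x i| ≤ R} ⊆
      {x : Sp (n + 1) | a / 2 ≤ |x j| ∧ N2 j k x ∈ Icc (a ^ 2) (b ^ 2) ∧ ∀ i, |x i| ≤ R} ∪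
      {x : Sp (n + 1) | a / 2 ≤ |x k| ∧ N2 j k x ∈ Icc (a ^ 2) (b ^ 2) ∧ ∀ i, |x i| ≤ R} := by
    rintro x ⟨⟨h1, h2⟩, h3⟩
    by_cases hj : a / 2 ≤ |x j|
    · exact Or.inl ⟨hj, ⟨h1, h2⟩, h3⟩
    · refine Or.inr ⟨?_, ⟨h1, h2⟩, h3⟩
      by_contra hk
      rw [not_le] at hj hk
      have h4 : |x j| ^ 2 < (a / 2) ^ 2 := pow_lt_pow_left₀ hj (abs_nonneg _) two_ne_zero
      have h5 : |x k| ^ 2 < (a / 2) ^ 2 := pow_lt_pow_left₀ hk (abs_nonneg _) two_ne_zero
      rw [sq_abs] at h4 h5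
      unfold N2 at h1
      nlinarith [sq_nonneg a, mul_pos ha ha]
  have mS : MeasurableSet {x : Sp (n + 1) | x ∈ shell j k a b ∧ ∀ i, |x i| ≤ R} := by
    have mc : ∀ i, Measurable fun x : Sp (n + 1) => x i := fun i =>
      (EuclideanSpace.proj (𝕜 := ℝ) i).continuous.measurable
    have mN : Measurable fun x : Sp (n + 1) => N2 j k x :=
      ((mc j).pow_const 2).add ((mc k).pow_const 2)
    have h3 : MeasurableSet {x : Sp (n + 1) | ∀ i, |x i| ≤ R} := by
      have : {x : Sp (n + 1) | ∀ i, |x i| ≤ R} = ⋂ i, {x : Sp (n + 1) | |x i| ≤ R} := by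
        ext x; simp
      rw [this]
      exact MeasurableSet.iInter fun i => measurableSet_le (mc i).abs measurable_const
    exact ((measurableSet_le measurable_const mN).inter
      (measurableSet_le mN measurable_const)).inter h3
  calc ∫⁻ x in {x : Sp (n + 1) | x ∈ shell j k a b ∧ ∀ i, |x i| ≤ R}, G (N2 j k x)
      ≤ ∫⁻ x in {x : Sp (n + 1) | x ∈ shell j k a b ∧ ∀ i, |x i| ≤ R}, G' (N2 j k x) :=
        setLIntegral_mono' mS fun x hx => hG'le _ hx.1
    _ ≤ _ := lintegral_mono_set hsub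
    _ ≤ _ := lintegral_union_le _ _ _
    _ ≤ c * (∫⁻ t in Icc (a ^ 2) (b ^ 2), G' t) + c * ∫⁻ t in Icc (a ^ 2) (b ^ 2), G' t :=
        add_le_add p1 p2
    _ = _ := by rw [add_mul]

end Pool.Agent.Q65.CC
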