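import Pool.Agent.Q62.CC.Stm

/-!
# Project CC, job MOM: the momentum equation and the divergence
-/

set_option autoImplicit false

open Set Filter Topology MeasureTheory
open scoped ENNReal ContDiff

namespace Pool.Agent.Q65.CC

open Pool.Agent.Q62.CC
open Pool.Agent.Q61.NC (Sp pd)

theorem sum2 {d : ℕ} {j k : Fin d} (hjk : j ≠ k) (F : Fin d → ℝ)
    (hF : ∀ i, i ≠ j → i ≠ k → F i = 0) : ∑ i, F i = F j + F k :=
  Finset.sum_eq_add j k hjk (fun i _ h => hF i h.1 h.2) (fun h => absurd (Finset.mem_univ _) h)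
    (fun h => absurd (Finset.mem_univ _) h)

theorem pd_neg {d : ℕ} (i : Fin d) (f : Sp d → ℝ) : pd i (fun y => -f y) = fun y => -pd i f y := by
  funext y
  simp [pd, fderiv_fun_neg]

theorem diff_coord {d : ℕ} (l : Fin d) (x : Sp d) : DifferentiableAt ℝ (fun y : Sp d => y l) x :=
  (EuclideanSpace.proj (𝕜 := ℝ) l).differentiableAt

theorem pd_coord {d : ℕ} (n l : Fin d) (x : Sp d) :
    pd n (fun y : Sp d => y l) x = if n = l then 1 else 0 := by
  have : fderiv ℝ (fun y : Sp d => y l) x = (EuclideanSpace.proj (𝕜 := ℝ) l) :=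
    (EuclideanSpace.proj (𝕜 := ℝ) l).fderiv
  simp only [pd, this]
  simp [eq_comm]

theorem diff_N2 {d : ℕ} (j k : Fin d) (x : Sp d) : DifferentiableAt ℝ (fun y : Sp d => N2 j k y) x := by
  unfold N2
  exact ((diff_coord j x).pow 2).add ((diff_coord k x).pow 2)

theorem vel_j {d : ℕ} {j k : Fin d} (Ω : ℝ → ℝ → ℝ) (A : Fin d → ℝ → ℝ → ℝ) (t : ℝ) (x : Sp d) :
    vel j k Ω A t x j = -(x k * Ω t (N2 j k x)) := by
  simp [vel]

theorem vel_k {d : ℕ} {j k : Fin d} (hjk : j ≠ k) (Ω : ℝ → ℝ → ℝ) (A : Fin d → ℝ → ℝ → ℝ) (t : ℝ)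
    (x : Sp d) : vel j k Ω A t x k = x j * Ω t (N2 j k x) := by
  simp [vel, hjk.symm]

theorem vel_o {d : ℕ} {j k n : Fin d} (h1 : n ≠ j) (h2 : n ≠ k) (Ω : ℝ → ℝ → ℝ)
    (A : Fin d → ℝ → ℝ → ℝ) (t : ℝ) (x : Sp d) :
    vel j k Ω A t x n = A n t (N2 j k x) := by
  simp [vel, h1, h2]

/-- the gradient of the pressure -/
theorem pd_pre (hp1 : S_LAP) (hp2 : S_ARG) (hp3 : S_PRI) {d : ℕ} {j k : Fin d} {N₀ N₁ s₀ : ℝ}
    {Ω Ωt Ω1 Ω2 : ℝ → ℝ → ℝ} {q : ℝ → ℝ} (Q : Fin d → ℝ → ℝ) (hjk : j ≠ k)
    (hs₀ : s₀ ∈ Ioo N₀ N₁) (hR : Rot N₀ N₁ Ω Ωt Ω1 Ω2 q) {t : ℝ} {x : Sp d} (ht : 0 < t)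
    (hx : N2 j k x ∈ Ioo N₀ N₁) (hc : x ∈ cut j k ∨ q t = 0) (n : Fin d) :
    pd n (pre j k s₀ Ω q Q t) x =
      (if n = j ∨ n = k then x n * Ω t (N2 j k x) ^ 2 else 0) -
      q t * (if n = j then -(x k) / N2 j k x else if n = k then x j / N2 j k x else 0) -
      (if n = j ∨ n = k then 0 else Q n t) := by
  have hprim := (hp3 N₀ N₁ s₀ (fun t s => Ω t s ^ 2) hs₀ (hR.smooth.pow 2)).2
  set g : ℝ → ℝ := fun y => ∫ s in s₀..y, Ω t s ^ 2 with hg
  have hg1 : ∀ s ∈ Ioo N₀ N₁, HasDerivAt g (Ω t s ^ 2) s := fun s hs => hprim t s ht hs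
  have hg2 : ∀ s ∈ Ioo N₀ N₁, HasDerivAt (fun s => Ω t s ^ 2) (2 * Ω t s * Ω1 t s) s := by
    intro s hs
    have := (hR.dx t s ht hs).pow 2
    refine this.congr_deriv ?_
    simp
  have hL := (hp1 d j k N₀ N₁ g (fun s => Ω t s ^ 2) (fun s => 2 * Ω t s * Ω1 t s) hjk hg1 hg2 x hx).1 n
  have d1 : DifferentiableAt ℝ (fun y : Sp d => g (N2 j k y) / 2) x := by
    have h1 : DifferentiableAt ℝ g (N2 j k x) := (hg1 _ hx).differentiableAt
    have h2 : DifferentiableAt ℝ (fun y : Sp d => g (N2 j k y)) x := h1.comp x (diff_N2 j k x)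
    have e : (fun y : Sp d => g (N2 j k y) / 2) = fun y => (2 : ℝ)⁻¹ * g (N2 j k y) := by
      funext y; ring
    rw [e]
    exact h2.const_mul _
  have p1 : pd n (fun y : Sp d => g (N2 j k y) / 2) x =
      if n = j ∨ n = k then x n * Ω t (N2 j k x) ^ 2 else 0 := by
    have h2 : DifferentiableAt ℝ (fun y : Sp d => g (N2 j k y)) x := by
      have h1 : DifferentiableAt ℝ g (N2 j k x) := (hg1 _ hx).differentiableAt
      exact h1.comp x (diff_N2 j k x)
    have h3 : fderiv ℝ (fun y : Sp d => g (N2 j k y) / 2) x =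
        (2 : ℝ)⁻¹ • fderiv ℝ (fun y : Sp d => g (N2 j k y)) x := by
      have : (fun y : Sp d => g (N2 j k y) / 2) = fun y => (2 : ℝ)⁻¹ * g (N2 j k y) := by
        funext y; ring
      rw [this, fderiv_const_mul h2]
    have h4 : pd n (fun y : Sp d => g (N2 j k y) / 2) x =
        (2 : ℝ)⁻¹ * pd n (fun y : Sp d => g (N2 j k y)) x := by
      simp only [pd, h3]
      rfl
    rw [h4, hL]
    split_ifs <;> ring
  have d2 : DifferentiableAt ℝ (fun y : Sp d => q t * Complex.arg ⟨y j, y k⟩) x := by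
    rcases hc with hc | hq
    · obtain ⟨ho, hsm, -⟩ := hp2 d j k hjk
      have := (hsm.contDiffAt (ho.mem_nhds hc)).differentiableAt (by simp)
      exact this.const_mul _
    · simp only [hq, zero_mul]
      exact differentiableAt_const 0
  have p2 : pd n (fun y : Sp d => q t * Complex.arg ⟨y j, y k⟩) x =
      q t * (if n = j then -(x k) / N2 j k x else if n = k then x j / N2 j k x else 0) := by
    rcases hc with hc | hq
    · obtain ⟨ho, hsm, hpd⟩ := hp2 d j k hjk
      have hd := (hsm.contDiffAt (ho.mem_nhds hc)).differentiableAt (by simp)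
      rw [← hpd x hc n]
      simp only [pd, fderiv_const_mul hd]
      rfl
    · simp only [hq, zero_mul, pd]
      rw [fderiv_fun_const]
      rfl
  have d3 : ∀ i ∈ (Finset.univ : Finset (Fin d)), DifferentiableAt ℝ
      (fun y : Sp d => if i = j ∨ i = k then (0 : ℝ) else Q i t * y i) x := by
    intro i _
    split_ifs
    · exact differentiableAt_const _
    · exact (diff_coord i x).const_mul _
  have p3 : pd n (fun y : Sp d => ∑ i, if i = j ∨ i = k then (0 : ℝ) else Q i t * y i) x =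
      if n = j ∨ n = k then 0 else Q n t := by
    have h1 : pd n (fun y : Sp d => ∑ i, if i = j ∨ i = k then (0 : ℝ) else Q i t * y i) x =
        ∑ i, pd n (fun y : Sp d => if i = j ∨ i = k then (0 : ℝ) else Q i t * y i) x := by
      simp only [pd]
      rw [fderiv_fun_sum d3]
      simp
    rw [h1, Finset.sum_eq_single n]
    · split_ifs with h
      · simp [pd]
      · have : pd n (fun y : Sp d => Q n t * y n) x = Q n t * pd n (fun y : Sp d => y n) x := by
          simp only [pd, fderiv_const_mul (diff_coord n x)]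
          rfl
        rw [this, pd_coord]
        simp
    · intro i _ hi
      split_ifs with h
      · simp [pd]
      · have : pd n (fun y : Sp d => Q i t * y i) x = Q i t * pd n (fun y : Sp d => y i) x := by
          simp only [pd, fderiv_const_mul (diff_coord i x)]
          rfl
        rw [this, pd_coord, if_neg hi.symm, mul_zero]
    · intro h
      exact absurd (Finset.mem_univ _) h
  have d3' : DifferentiableAt ℝ
      (fun y : Sp d => ∑ i, if i = j ∨ i = k then (0 : ℝ) else Q i t * y i) x :=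
    DifferentiableAt.fun_sum d3
  have e : pre j k s₀ Ω q Q t = fun y : Sp d => g (N2 j k y) / 2 -
      q t * Complex.arg ⟨y j, y k⟩ - ∑ i, (if i = j ∨ i = k then (0 : ℝ) else Q i t * y i) := by
    funext y
    rfl
  rw [e, ← p1, ← p2, ← p3]
  simp only [pd]
  rw [((d1.hasFDerivAt.fun_sub d2.hasFDerivAt).fun_sub d3'.hasFDerivAt).fderiv]
  rfl

theorem t_MOM (hp1 : S_LAP) (hp2 : S_ARG) (hp3 : S_PRI) : S_MOM := by
  intro d j k N₀ N₁ s₀ Ω Ωt Ω1 Ω2 q A At A1 A2 Q hjk hN₀ hs₀ hR hA t x ht hx hc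
  have hN : 0 < N2 j k x := hN₀.trans hx.1
  have hN' : x j ^ 2 + x k ^ 2 = N2 j k x := rfl
  obtain ⟨-, -, hO⟩ := hp1 d j k N₀ N₁ (Ω t) (Ω1 t) (Ω2 t) hjk (fun s hs => hR.dx t s ht hs)
    (fun s hs => hR.dxx t s ht hs) x hx
  obtain ⟨oj1, oj2⟩ := hO j (Or.inl rfl)
  obtain ⟨ok1, ok2⟩ := hO k (Or.inr rfl)
  have hAx : ∀ n, _ := fun n => hp1 d j k N₀ N₁ (A n t) (A1 n t) (A2 n t) hjk
    (fun s hs => (hA n).dx t s ht hs) (fun s hs => (hA n).dxx t s ht hs) x hx
  have hheat := hR.heat t _ ht hx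
  have vj : (fun y : Sp d => vel j k Ω A t y j) = fun y => -(y k * Ω t (N2 j k y)) := by
    funext y; exact vel_j Ω A t y
  have vk : (fun y : Sp d => vel j k Ω A t y k) = fun y => y j * Ω t (N2 j k y) := by
    funext y; exact vel_k hjk Ω A t y
  have vo : ∀ n, n ≠ j → n ≠ k → (fun y : Sp d => vel j k Ω A t y n) =
      fun y => A n t (N2 j k y) := by
    intro n h1 h2
    funext y; exact vel_o h1 h2 Ω A t y
  have hk' : k ≠ j := hjk.symm
  refine ⟨fun n => ?_, ?_⟩
  · rw [pd_pre hp1 hp2 hp3 Q hjk hs₀ hR ht hx hc n]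
    by_cases h1 : n = j
    · subst h1
      have hder : deriv (fun s => vel n k Ω A s x n) t = -(x k * Ωt t (N2 n k x)) := by
        have : (fun s => vel n k Ω A s x n) = fun s => -(x k * Ω s (N2 n k x)) := by
          funext s; exact vel_j Ω A s x
        rw [this]
        exact ((hR.dt t _ ht hx).const_mul (x k)).neg.deriv
      rw [hder, vj]
      simp only [pd_neg]
      rw [sum2 hjk]
      · simp only [ok1, ok2, Finset.sum_neg_distrib, vel_j, vel_k hjk]
        simp only [if_true, if_neg hjk, true_or, or_true, if_true, zero_add]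
        rw [hheat]
        field_simp
        ring
      · intro i hi1 hi2
        simp only [ok1]
        simp [hi1, hi2]
    · by_cases h2 : n = k
      · subst h2
        have hder : deriv (fun s => vel j n Ω A s x n) t = x j * Ωt t (N2 j n x) := by
          have : (fun s => vel j n Ω A s x n) = fun s => x j * Ω s (N2 j n x) := by
            funext s; exact vel_k hjk Ω A s x
          rw [this]
          exact ((hR.dt t _ ht hx).const_mul (x j)).deriv
        rw [hder, vk]
        rw [sum2 hjk]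
        · simp only [oj1, oj2, vel_j, vel_k hjk]
          simp only [if_true, if_neg hk', true_or, or_true, if_true, zero_add]
          rw [hheat]
          field_simp
          ring
        · intro i hi1 hi2
          simp only [oj1]
          simp [hi1, hi2]
      · obtain ⟨a1, a2, -⟩ := hAx n
        have hder : deriv (fun s => vel j k Ω A s x n) t = At n t (N2 j k x) := by
          have : (fun s => vel j k Ω A s x n) = fun s => A n s (N2 j k x) := by
            funext s; exact vel_o h1 h2 Ω A s x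
          rw [this]
          exact ((hA n).dt t _ ht hx).deriv
        rw [hder, vo n h1 h2, a2, sum2 hjk]
        · simp only [a1, vel_j, vel_k hjk]
          simp only [if_true, h1, h2, or_self, if_false, true_or, or_true]
          rw [(hA n).heat t _ ht hx]
          ring
        · intro i hi1 hi2
          simp only [a1]
          simp [hi1, hi2]
  · rw [sum2 hjk]
    · rw [vj, vk, pd_neg]
      simp only [ok1, oj1]
      simp only [if_neg hjk, if_neg hk', true_or, or_true, if_true, zero_add]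
      ring
    · intro i hi1 hi2
      rw [vo i hi1 hi2]
      simp only [(hAx i).1]
      simp [hi1, hi2]

end Pool.Agent.Q65.CC
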